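import Pool.Agent.K1H27.SN.Fin
import Pool.Agent.Y271.RN.Red

/-!
# Reductive operators `N + t K`, `N` an arbitrary normal operator, `K` in `C_p`, `p < 2`
-/

set_option autoImplicit false

namespace Pool.Agent.K1H27.RD

open MeasureTheory Set Metric Filter Topology
open scoped InnerProductSpace ENNReal NNReal
open Pool.Agent.K1H27.SN
open Pool.Agent.Y283.NK (LogBd)

/-- compactness of the perturbation -/
theorem compactK (H : Type) [NormedAddCommGroup H] [InnerProductSpace ℂ H] [CompleteSpace H]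
    (K : H →L[ℂ] H) {ι : Type}
    {e f : ι → H} (he : Orthonormal ℂ e) (hf : Orthonormal ℂ f) {s : ι → ℝ} (h0 : ∀ i, 0 ≤ s i)
    {p : ℝ} (hp : 0 < p) (hp2 : p < 2) (hs : Summable fun i => s i ^ p)
    (hK : ∀ x, HasSum (fun i => ((s i : ℂ) * ⟪e i, x⟫_ℂ) • f i) (K x)) :
    IsCompactOperator K := by
  obtain ⟨σ, e', f', a1, a2, a3, a4, a5⟩ := exists_seq he hf h0 hp (le_max_left p 1) hs hK
  obtain ⟨m₀, q, δ, γ, r', P⟩ := exists_par (le_max_right p 1) (max_lt hp2 one_lt_two)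
  have hK1 : Tendsto (fun n => frs σ e' f' n) atTop (𝓝 K) :=
    tendsto_frs P a1 a2 a3 (norm_le_of_bess a4) a5
  exact isCompactOperator_of_tendsto hK1 (Eventually.of_forall fun n => frs_compact σ e' f' n)

/-- the theorem for one measure -/
theorem red0 (H : Type) [NormedAddCommGroup H] [InnerProductSpace ℂ H] [CompleteSpace H]
    [TopologicalSpace.SeparableSpace H] (N K : H →L[ℂ] H) (hN : IsStarNormal N) {ι : Type}
    {e f : ι → H} (he : Orthonormal ℂ e) (hf : Orthonormal ℂ f) {s : ι → ℝ} (h0 : ∀ i, 0 ≤ s i)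
    {p : ℝ} (hp : 0 < p) (hp2 : p < 2) (hs : Summable fun i => s i ^ p)
    (hK : ∀ x, HasSum (fun i => ((s i : ℂ) * ⟪e i, x⟫_ℂ) • f i) (K x)) (m : Measure ℂ)
    [SFinite m] (hm : LogBd m) :
    ∀ᵐ t ∂m, Pool.Agent.W706.HIR.Reductive (N + t • K) → IsStarNormal (N + t • K) := by
  have hKc := compactK H K he hf h0 hp hp2 hs hK
  filter_upwards [main0 H N K hN he hf h0 hp hp2 hs hK m hm] with t ht hred
  exact Pool.Agent.Y271.RN.main _ hred (Pool.Agent.W706.HIR.compact_sc hN (hKc.smul t))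
    ht.2.1 ht.2.2

end Pool.Agent.K1H27.RD
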