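import Pool.Agent.K1H27.VM.Fin
import Pool.Agent.Y271.RN.Red

/-!
# Reductive operators `M_φ + V` on `L²`, `V` of Volterra type (MP_49c4d9_an)
-/

set_option autoImplicit false

namespace Pool.Agent.K1H27.RD

open MeasureTheory Set Metric Filter Topology
open scoped InnerProductSpace ENNReal NNReal

/-- VRED: reductive operators `M_φ + V` are normal -/
def S_VRED : Prop := ∀ (S : Type) [MeasurableSpace S] (μ : Measure S) [SigmaFinite μ]
  (s s' α β : ℝ≥0∞) (φ : S → ℂ) (τ : S → ℝ) (k : S → S → ℂ) (a b : S → ℝ) (l : S → S → ℝ),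
  Measurable φ → (∃ M : ℝ, ∀ x, ‖φ x‖ ≤ M) → Pool.Agent.K1H27.VM.Ker μ s s' τ k a b l →
  α.HolderTriple 2 s → β.HolderTriple 2 s → MemLp a 2 μ → MemLp a α μ → MemLp b 2 μ →
  MemLp b β μ → ∀ T : Lp ℂ 2 μ →L[ℂ] Lp ℂ 2 μ,
  (∀ g : Lp ℂ 2 μ, ⇑(T g) =ᵐ[μ] fun x => φ x * g x + ∫ y, k x y * g y ∂μ) →
  Pool.Agent.W706.HIR.Reductive T → IsStarNormal T

end Pool.Agent.K1H27.RD
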